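import Pool.Agent.H631.EV.Card
import Pool.Agent.H631.EV.Zfc
import Pool.Agent.H631.EV.UnitM

/-!
# The four cardinal invariants of an ideal `S_{I, ε}` can be pairwise different

For every set `R` there are sets `T`, `K`, `L` with `R ↪ T` and a ccc notion of forcing `P` which
forces the combinatorial sentence `PhiFor T K L` (`PhiHolds P T K L` is its literal translation
into the forcing language). This sentence implies, for the partition `I` of `ℕ` into intervals
`I n` with `4 * (n + 1)` elements and for `ε n = (n + 1) / 16 ^ (n + 1)`, that
`add(S_{I, ε}) ≤ |T| < cov(S_{I, ε}) ≤ |K| < non(S_{I, ε}) ≤ |L| < cof(S_{I, ε})`.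

A condition of `P` gives finite information on functions bounded by `16 ^ (n + 1)`, together
with finitely many promises, where a promise says that a function evades a slalom of width `n + 1`
or that it is different from another function from some point on. The coordinates are: functions
indexed by the product `K × L`, where the function at `(k, l)` evades slaloms given by names whose
supports are below `(k, l)`; for each `k` in `K` a Cohen function which is infinitely often equal
to each function which lives below `k` in the first coordinate; for each `l` in `L` the same for the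
second coordinate; and many Cohen functions. Two conditions which agree on a lower set of
coordinates can be amalgamated, because at each `n` the number of the values which are forbidden
by the promises is a small fraction of `16 ^ (n + 1)`.
-/

set_option autoImplicit false

namespace Pool.Agent.Results.MP_2148a5_lc.FourValues

open Cardinal Pool.Agent.H631.EV

/-- (A) For every set `R` there are sets `T`, `K`, `L`, with an injection from `R` to `T`, and a
nonempty ccc notion of forcing `P`, all of whose conditions force the sentence `PhiFor T K L`.
(B) The sentence of the forcing language means `PhiFor T K L` (over the trivial notion of forcing).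
(C) Whenever `PhiFor T K L` holds there are a partition `I` of `ℕ` into finite nonempty intervals
and a summable sequence `ε` of positive reals, such that the ideal `S_{I, ε}` contains all
singletons and not the whole space, and `add(S) ≤ |T| < cov(S) ≤ |K| < non(S) ≤ |L| < cof(S)`; in
particular the four cardinals are pairwise different. -/
theorem result :
    (∀ R : Type, ∃ (T K L P : Type) (_ : Preorder P),
      Nonempty (R ↪ T) ∧ Nonempty P ∧
      (∀ A : Set P, (∀ p ∈ A, ∀ q ∈ A, p ≠ q → ¬ ∃ r, r ≤ p ∧ r ≤ q) → A.Countable) ∧
      ∀ p : P, p ∈ PhiHolds P T K L) ∧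
    (∀ (T K L : Type) (p : Unit), p ∈ PhiHolds Unit T K L ↔ PhiFor T K L) ∧
    (∀ T K L : Type, PhiFor T K L →
      ∃ (a : ℕ → ℕ) (ε : ℕ → ℝ), IsPartition a ∧ (∀ n, 0 < ε n) ∧ Summable ε ∧
        (∀ x : ℕ → Bool, {x} ∈ SIdeal a ε) ∧ Set.univ ∉ SIdeal a ε ∧
        addC (SIdeal a ε) ≤ #T ∧ #T < covC (SIdeal a ε) ∧
        covC (SIdeal a ε) ≤ #K ∧ #K < nonC (SIdeal a ε) ∧
        nonC (SIdeal a ε) ≤ #L ∧ #L < cofC (SIdeal a ε) ∧
        addC (SIdeal a ε) < covC (SIdeal a ε) ∧ covC (SIdeal a ε) < nonC (SIdeal a ε) ∧
        nonC (SIdeal a ε) < cofC (SIdeal a ε)) := by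
  refine ⟨exists_forcing, unit_meaning, fun T K L h => ?_⟩
  obtain ⟨h1, h2, h3, h4, h5, h6⟩ := values h
  exact ⟨aa, ee, aa_part, ee_pos, ee_summable, singleton_mem, univ_notMem, h1, h2, h3, h4, h5, h6,
    h1.trans_lt h2, h3.trans_lt h4, h5.trans_lt h6⟩

end Pool.Agent.Results.MP_2148a5_lc.FourValues
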