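import Pool.Agent.H631.EI.Asm

/-!
# The four cardinal invariants of an ideal `E_{I, ε}` can be pairwise different

For every set `R` there are sets `T`, `K`, `L` with `R ↪ T` and a ccc notion of forcing `P` which
forces the combinatorial sentence `PhiFor T K L` (`PhiHolds P T K L` is its literal translation
into the forcing language). This sentence implies, for the partition `I` of `ℕ` into the intervals
`I n = [aa n, aa (n + 1))` of length `2 * vv n`, where `vv n = n ^ 2 * aa n + 2 * n + 2`, and for
`ε n = (n + 1) / VV n`, `VV n = 2 ^ vv n`, that
`add(E_{I, ε}) ≤ |T| < non(E_{I, ε}) ≤ |K| < cov(E_{I, ε}) ≤ |L| < cof(E_{I, ε})`.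

The coordinates of the iteration are: slaloms of width `VV n`, indexed by the product `K × L`, where
the slalom at `(k, l)` captures the functions (modulo `bb n = 2 ^ |I n|`) given by names whose
supports are below `(k, l)`; for each `k` in `K` a Cohen function which is infinitely often equal
to each function which lives below `k` in the first coordinate; for each `l` in `L` the same for the
second coordinate; and many Cohen functions. Given finitely many conditions which agree on a finite
set of coordinates and are disjoint otherwise, a large part has a common extension: at the places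
less than `n` the promises are taken care of by the pigeonhole principle (there are at most
`(∏ i < n, bb i) ^ n = 2 ^ (n * aa n)` types of promises), and from `n` on all promises can be kept, because `VV n` is larger
than the number of the conditions. Therefore a slalom of width `n + 1` cannot capture uncountably many of the Cohen functions
modulo `VV n`, and this gives the bounds for the additivity and the cofinality, where the number `v < VV n` stands
for a block of `VV n` elements of `2 ^ (I n)`.
-/

set_option autoImplicit false

namespace Pool.Agent.Results.MP_2148a5_lc.FourValuesE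

open Cardinal Pool.Agent.H631.EI
open Pool.Agent.H631.EV (IsPartition addC covC nonC cofC)

/-- (A) For every set `R` there are sets `T`, `K`, `L`, with an injection from `R` to `T`, and a
nonempty ccc notion of forcing `P`, all of whose conditions force the sentence `PhiFor T K L`.
(B) The sentence of the forcing language means `PhiFor T K L` (over the trivial notion of forcing).
(C) Whenever `PhiFor T K L` holds there are a partition `I` of `ℕ` into finite nonempty intervals
and a summable sequence `ε` of positive reals, such that the ideal `E_{I, ε}` contains all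
singletons and not the whole space, and `add(E) ≤ |T| < non(E) ≤ |K| < cov(E) ≤ |L| < cof(E)`; in
particular the four cardinals are pairwise different. -/
theorem result :
    (∀ R : Type, ∃ (T K L P : Type) (_ : Preorder P),
      Nonempty (R ↪ T) ∧ Nonempty P ∧
      (∀ A : Set P, (∀ p ∈ A, ∀ q ∈ A, p ≠ q → ¬ ∃ r, r ≤ p ∧ r ≤ q) → A.Countable) ∧
      ∀ p : P, p ∈ PhiHolds P T K L) ∧
    (∀ (T K L : Type) (p : Unit), p ∈ PhiHolds Unit T K L ↔ PhiFor T K L) ∧
    (∀ T K L : Type, PhiFor T K L →
      ∃ (a : ℕ → ℕ) (ε : ℕ → ℝ), IsPartition a ∧ (∀ n, 0 < ε n) ∧ Summable ε ∧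
        (∀ x : ℕ → Bool, {x} ∈ EIdeal a ε) ∧ Set.univ ∉ EIdeal a ε ∧
        addC (EIdeal a ε) ≤ #T ∧ #T < nonC (EIdeal a ε) ∧
        nonC (EIdeal a ε) ≤ #K ∧ #K < covC (EIdeal a ε) ∧
        covC (EIdeal a ε) ≤ #L ∧ #L < cofC (EIdeal a ε) ∧
        addC (EIdeal a ε) < nonC (EIdeal a ε) ∧ nonC (EIdeal a ε) < covC (EIdeal a ε) ∧
        covC (EIdeal a ε) < cofC (EIdeal a ε)) := by
  refine ⟨exists_forcing, unit_meaning, fun T K L h => ?_⟩
  obtain ⟨h1, h2, h3, h4, h5, h6⟩ := values h
  exact ⟨aa, ee, aa_part, ee_pos, ee_summable, singleton_mem, univ_notMem, h1, h2, h3, h4, h5, h6,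
    h1.trans_lt h2, h3.trans_lt h4, h5.trans_lt h6⟩

end Pool.Agent.Results.MP_2148a5_lc.FourValuesE
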